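import Pool.Agent.Q256.UI.Stm

set_option autoImplicit false

/-! # Project UI (helper256), job BGD -/

namespace Pool.Agent.Q96.UI

open Finset MvPolynomial
open Pool.Agent.Q256.UP (PBox)
open Pool.Agent.Q256.UI

/-- UI-BGD -/
theorem bgd (hCZR : S_CZR) (hCM : S_CM) (hFAM : S_FAM) (hDEG : S_DEG) (hTAY : S_TAY) : S_BGD := by
  classical
  intro d Φ Θ A hd hL hP
  have hA : 1 ≤ A := by
    have h1 := hP.one
    have h2 : (1 : ℝ) ≤ (d : ℝ) * 4 ^ d := by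
      have h3 : (1 : ℝ) ≤ d := by exact_mod_cast (by omega : 1 ≤ d)
      have h4 : (1 : ℝ) ≤ 4 ^ d := one_le_pow₀ (by norm_num)
      nlinarith
    linarith
  have hA0 : 0 < A := by linarith
  have hd1 : (1 : ℝ) ≤ d := by exact_mod_cast (by omega : 1 ≤ d)
  -- the constants for the zeros
  have hex : ∀ θ ∈ Θ, ∃ C : ℝ, 1 ≤ C ∧ ∀ (H T : ℝ) (G : MvPolynomial (Fin 2) ℤ), 1 ≤ H → C * H ≤ T →
      G.totalDegree ≤ d - 1 → Bd d A H (tc (Φ + G) θ) →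
      (Ap d (tc (Φ + G) θ) θ A H T (A * H)).Finite ∧
      ((Ap d (tc (Φ + G) θ) θ A H T (A * H)).ncard : ℝ) ≤ C * H ^ ((2 : ℝ) / 3 + 1 / 7) :=
    fun θ hθ => hCZR d Φ θ A hd hL hA (hP.lio θ hθ)
  choose! Cθ hCθ1 hCθ using hex
  obtain ⟨C0, hC0⟩ : ∃ C0 : ℝ, C0 = 1 + ∑ θ ∈ Θ, Cθ θ := ⟨_, rfl⟩
  have hC01 : 1 ≤ C0 := by
    rw [hC0]
    have : 0 ≤ ∑ θ ∈ Θ, Cθ θ := Finset.sum_nonneg fun θ hθ => by linarith [hCθ1 θ hθ]
    linarith
  have hCle : ∀ θ ∈ Θ, Cθ θ ≤ C0 := by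
    intro θ hθ
    have := Finset.single_le_sum (f := Cθ) (fun θ hθ => by linarith [hCθ1 θ hθ]) hθ
    rw [hC0]
    linarith
  obtain ⟨H1, hH1⟩ := exists_nat_ge (2 * C0 + 2 * A)
  -- the constant
  obtain ⟨C1, hC1⟩ : ∃ C1 : ℝ, C1 = (C0 * 2) * ((#Θ + 1) * 9 ^ NN d) := ⟨_, rfl⟩
  obtain ⟨C2, hC2⟩ : ∃ C2 : ℝ, C2 = (2 * (H1 : ℝ) + 1) ^ NN d := ⟨_, rfl⟩
  have hC10 : 0 ≤ C1 := by rw [hC1]; positivity
  have hC20 : 0 ≤ C2 := by rw [hC2]; positivity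
  refine ⟨1 + C1 + C2, by linarith, fun H T hH hT => ?_⟩
  have hHr1 : (1 : ℝ) ≤ H := by exact_mod_cast hH
  have hH0 : (0 : ℝ) < H := by linarith
  have hNN : (25 / 21 : ℝ) ≤ NN d := by
    have h1 : 2 ≤ NN d := by
      unfold NN
      have h2 : (3 : ℕ).choose 2 ≤ (d + 1).choose 2 := Nat.choose_le_choose 2 (by omega)
      have h3 : (3 : ℕ).choose 2 = 3 := rfl
      omega
    have h2 : (2 : ℝ) ≤ NN d := by exact_mod_cast h1
    linarith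
  obtain ⟨V, hV⟩ : ∃ V : Set (MvPolynomial (Fin 2) ℤ),
    V = {F | F ∈ ZR Φ d H T (2 * T) ∧ ∃ θ ∈ Θ, |rho d (tc F θ)| ≤ 1 / 4} := ⟨_, rfl⟩
  rw [← hV]
  have hpow : (0 : ℝ) ≤ (H : ℝ) ^ ((NN d : ℝ) - 25 / 21) := by positivity
  rcases lt_or_ge H H1 with hlt | hge
  · -- small `H`
    have h1 : Nat.card V ≤ Nat.card (Fam Φ d H) := by
      rw [Nat.card_coe_set_eq, Nat.card_coe_set_eq]
      refine Set.ncard_le_ncard ?_ (hFAM.1 Φ d H (by omega)).1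
      rw [hV]
      exact fun F hF => hF.1.1
    rw [(hFAM.1 Φ d H (by omega)).2] at h1
    have h2 : (Nat.card V : ℝ) ≤ (2 * H + 1) ^ NN d := by exact_mod_cast h1
    have h3 : (2 * (H : ℝ) + 1) ^ NN d ≤ C2 := by
      rw [hC2]
      have : (H : ℝ) ≤ H1 := by exact_mod_cast hlt.le
      gcongr
    have h4 : (1 : ℝ) ≤ (H : ℝ) ^ ((NN d : ℝ) - 25 / 21) := Real.one_le_rpow hHr1 (by linarith)
    calc (Nat.card V : ℝ) ≤ C2 * 1 := by linarith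
      _ ≤ C2 * (H : ℝ) ^ ((NN d : ℝ) - 25 / 21) := mul_le_mul_of_nonneg_left h4 hC20
      _ ≤ (1 + C1 + C2) * (H : ℝ) ^ ((NN d : ℝ) - 25 / 21) := mul_le_mul_of_nonneg_right (by linarith) hpow
  -- large `H`
  have hHH1 : (H1 : ℝ) ≤ H := by exact_mod_cast hge
  have hT4 : H ^ 4 ≤ T := by
    refine le_trans ?_ hT
    calc H ^ 4 ≤ (d * H) ^ 4 := Nat.pow_le_pow_left (Nat.le_mul_of_pos_left H (by omega)) 4
      _ ≤ (d * H) ^ (d - 3) := Nat.pow_le_pow_right (Nat.mul_pos (by omega) hH) (by omega)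
  have hT4r : (H : ℝ) ^ 4 ≤ T := by exact_mod_cast hT4
  have hTH : (H : ℝ) * H ≤ T := by
    refine le_trans ?_ hT4r
    have h1 : (1 : ℝ) ≤ H * H := by nlinarith
    have h2 : (H : ℝ) ^ 4 = (H * H) * (H * H) := by ring
    rw [h2]
    nlinarith
  have hTC : C0 * (2 * H) ≤ T := by
    have : (C0 * 2) * H ≤ H * H := mul_le_mul_of_nonneg_right (by linarith) hH0.le
    linarith
  have hTA : A * (2 * H) ≤ T := by
    have : (A * 2) * H ≤ H * H := mul_le_mul_of_nonneg_right (by linarith) hH0.le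
    linarith
  have hT2 : 2 * H ≤ T := by
    have h1 : (2 : ℝ) * H ≤ T := by nlinarith
    exact_mod_cast h1
  have hT1 : (1 : ℝ) ≤ T := by exact_mod_cast (by omega : 1 ≤ T)
  obtain ⟨H', hH'⟩ : ∃ H' : ℕ, H' = H + (0 + 1) * H := ⟨_, rfl⟩
  have hH'd : H' = 2 * H := by rw [hH']; ring
  have hH'r : (H' : ℝ) = 2 * H := by rw [hH'd]; push_cast; ring
  have hH'1 : 1 ≤ H' := by omega
  have hH'r1 : (1 : ℝ) ≤ H' := by exact_mod_cast hH'1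
  obtain ⟨Reg, hReg⟩ : ∃ Reg : Set (ℤ × ℤ), Reg = {p : ℤ × ℤ | (T : ℤ) ≤ p.1 ∧ p.1 ≤ 2 * T ∧ |p.2| ≤ p.1} := ⟨_, rfl⟩
  obtain ⟨B, hB⟩ : ∃ B : Set (MvPolynomial (Fin 2) ℤ),
    B = {F | F ∈ Fam Φ d H' ∧ ∃ θ ∈ Θ, |rho d (tc F θ)| ≤ 1 / 4} := ⟨_, rfl⟩
  have hBfam : B ⊆ Fam Φ d H' := by rw [hB]; exact fun F hF => hF.1
  have hBfin : B.Finite := (hFAM.1 Φ d H' (by omega)).1.subset hBfam
  -- the number of elements of `B`
  have hBcard : Nat.card B * (H' + 1) ≤ #Θ * (2 * (2 * H') + 1) ^ NN d := by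
    have hsub : B ⊆ ⋃ θ ∈ Θ, {F | F ∈ Fam Φ d H' ∧ |rho d (tc F θ)| ≤ 1 / 4} := by
      rw [hB]
      rintro F ⟨h1, θ, hθ, h2⟩
      rw [Set.mem_iUnion₂]
      exact ⟨θ, hθ, h1, h2⟩
    have hfin : (⋃ θ ∈ Θ, {F | F ∈ Fam Φ d H' ∧ |rho d (tc F θ)| ≤ 1 / 4}).Finite :=
      Set.Finite.biUnion Θ.finite_toSet fun θ _ => (hFAM.1 Φ d H' (by omega)).1.subset fun F hF => hF.1
    have h1 : Nat.card B ≤ ∑ θ ∈ Θ, Nat.card {F | F ∈ Fam Φ d H' ∧ |rho d (tc F θ)| ≤ 1 / 4} := by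
      rw [Nat.card_coe_set_eq]
      refine (Set.ncard_le_ncard hsub hfin).trans ((Finset.set_ncard_biUnion_le Θ _).trans (le_of_eq ?_))
      exact sum_congr rfl fun θ _ => (Nat.card_coe_set_eq _).symm
    calc Nat.card B * (H' + 1) ≤
        (∑ θ ∈ Θ, Nat.card {F | F ∈ Fam Φ d H' ∧ |rho d (tc F θ)| ≤ 1 / 4}) * (H' + 1) := Nat.mul_le_mul_right _ h1
      _ = ∑ θ ∈ Θ, Nat.card {F | F ∈ Fam Φ d H' ∧ |rho d (tc F θ)| ≤ 1 / 4} * (H' + 1) := sum_mul _ _ _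
      _ ≤ ∑ θ ∈ Θ, (2 * (2 * H') + 1) ^ NN d := sum_le_sum fun θ _ => hDEG.2 d H' Φ θ (by omega)
      _ = _ := by rw [sum_const, smul_eq_mul]
  obtain ⟨e, he⟩ : ∃ e : ℝ, e = (2 : ℝ) / 3 + 1 / 7 := ⟨_, rfl⟩
  obtain ⟨M, hM⟩ : ∃ M : ℕ, M = ⌊C0 * (H' : ℝ) ^ e⌋₊ := ⟨_, rfl⟩
  have hcount : ∀ F ∈ B, {p | p ∈ Reg ∧ |eval ![p.1, p.2] F| ≤ (0 + 1 : ℕ) * H * |p.1| ^ 0}.Finite ∧
      {p | p ∈ Reg ∧ |eval ![p.1, p.2] F| ≤ (0 + 1 : ℕ) * H * |p.1| ^ 0}.ncard ≤ M := by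
    intro F hFB
    have hF := hBfam hFB
    obtain ⟨G, hG, hFG⟩ := hF
    have hFdeg : F.totalDegree ≤ d := by
      rw [hFG]
      refine (totalDegree_add _ _).trans (max_le hL.hom.totalDegree_le ?_)
      exact hG.1.trans (by omega)
    have hsub : {p | p ∈ Reg ∧ |eval ![p.1, p.2] F| ≤ (0 + 1 : ℕ) * H * |p.1| ^ 0} ⊆
        ⋃ θ ∈ Θ, Ap d (tc F θ) θ A H' T (A * H') := by
      rintro ⟨x, y⟩ ⟨hp, hv⟩
      rw [hReg] at hp
      obtain ⟨h1, h2, h3⟩ := hp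
      simp only at h1 h2 h3 hv
      have hx0 : 0 ≤ x := by omega
      have hxr : (T : ℝ) ≤ x := by exact_mod_cast h1
      have hx2r : (x : ℝ) ≤ 2 * T := by exact_mod_cast h2
      have hx1 : (1 : ℝ) ≤ x := by linarith
      have h5 : |ev F x y| ≤ H := by
        rw [hTAY.2 F x y, ← Int.cast_abs]
        have h5 : ((|eval ![x, y] F| : ℤ) : ℝ) ≤ (((0 + 1 : ℕ) * H * |x| ^ 0 : ℤ) : ℝ) := by exact_mod_cast hv
        refine h5.trans (le_of_eq ?_)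
        push_cast
        ring
      have h4 : |ev F x y| ≤ d * 2 ^ d * H' * (x : ℝ) ^ (d - 1) := by
        refine h5.trans ?_
        rw [hH'r]
        have h6 : (1 : ℝ) ≤ 2 ^ d := one_le_pow₀ (by norm_num)
        have h7 : (1 : ℝ) ≤ (x : ℝ) ^ (d - 1) := one_le_pow₀ hx1
        have h8 : (1 : ℝ) ≤ d * 2 ^ d := by nlinarith
        calc (H : ℝ) ≤ 1 * (2 * H) * 1 := by linarith
          _ ≤ d * 2 ^ d * (2 * H) * (x : ℝ) ^ (d - 1) := by gcongr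
      obtain ⟨θ, hθ, h6⟩ := hP.near H' hH'1 F ⟨G, hG, hFG⟩ x y (by rw [hH'r]; linarith) h3 h4
      rw [Set.mem_iUnion₂]
      refine ⟨θ, hθ, ?_⟩
      refine ⟨hxr, hx2r, h6, ?_⟩
      have h7 := hTAY.1 d F θ x ((y : ℝ) - θ * x) hFdeg
      rw [← h7, add_sub_cancel]
      refine h5.trans ?_
      rw [hH'r]
      nlinarith
    have hAp : ∀ θ ∈ Θ, (Ap d (tc F θ) θ A H' T (A * H')).Finite ∧
        ((Ap d (tc F θ) θ A H' T (A * H')).ncard : ℝ) ≤ Cθ θ * (H' : ℝ) ^ e := by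
      intro θ hθ
      rw [hFG, he]
      refine hCθ θ hθ H' T G hH'r1 ?_ hG.1 ?_
      · rw [hH'r]
        refine le_trans (mul_le_mul_of_nonneg_right (hCle θ hθ) (by positivity)) hTC
      · rw [← hFG]
        exact hP.bd θ hθ H' hH'1 F ⟨G, hG, hFG⟩
    have hfin : (⋃ θ ∈ Θ, Ap d (tc F θ) θ A H' T (A * H')).Finite :=
      Set.Finite.biUnion Θ.finite_toSet fun θ hθ => (hAp θ hθ).1
    refine ⟨hfin.subset hsub, ?_⟩
    rw [hM]
    apply Nat.le_floor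
    have h1 := (Set.ncard_le_ncard hsub hfin).trans (Finset.set_ncard_biUnion_le Θ _)
    have h2 : (({p | p ∈ Reg ∧ |eval ![p.1, p.2] F| ≤ (0 + 1 : ℕ) * H * |p.1| ^ 0}.ncard : ℕ) : ℝ) ≤
        ∑ θ ∈ Θ, ((Ap d (tc F θ) θ A H' T (A * H')).ncard : ℝ) := by exact_mod_cast h1
    refine h2.trans ((sum_le_sum fun θ hθ => (hAp θ hθ).2).trans ?_)
    rw [← sum_mul]
    apply mul_le_mul_of_nonneg_right _ (by positivity)
    rw [hC0]
    linarith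
  have key := hCM d H 0 M Φ Reg V B ?_ ?_ hBfin ?_ ?_ ?_
  · have key' : (Nat.card V : ℝ) * ((H : ℝ) + 1) ^ (0 + 1) ≤ M * (Nat.card B : ℝ) := by exact_mod_cast key
    rw [zero_add, pow_one] at key'
    have hBr : (Nat.card B : ℝ) * ((H' : ℝ) + 1) ≤ #Θ * (2 * (2 * H') + 1) ^ NN d := by exact_mod_cast hBcard
    have hMr : (M : ℝ) ≤ C0 * (2 * (H : ℝ) ^ e) := by
      rw [hM]
      refine (Nat.floor_le (by positivity)).trans ?_
      apply mul_le_mul_of_nonneg_left _ (by linarith)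
      rw [hH'r, Real.mul_rpow (by norm_num) hH0.le]
      apply mul_le_mul_of_nonneg_right _ (by positivity)
      calc (2 : ℝ) ^ e ≤ 2 ^ (1 : ℝ) := Real.rpow_le_rpow_of_exponent_le (by norm_num) (by rw [he]; norm_num)
        _ = 2 := Real.rpow_one 2
    have hBr2 : (Nat.card B : ℝ) * H ≤ ((#Θ + 1) * 9 ^ NN d) * (H : ℝ) ^ NN d := by
      calc (Nat.card B : ℝ) * H ≤ (Nat.card B : ℝ) * ((H' : ℝ) + 1) := by
            gcongr
            rw [hH'r]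
            linarith
        _ ≤ #Θ * (2 * (2 * H') + 1) ^ NN d := hBr
        _ ≤ (#Θ + 1) * (9 * H) ^ NN d := by
            gcongr
            · linarith
            · rw [hH'r]
              linarith
        _ = _ := by rw [mul_pow]; ring
    have hrp : (H : ℝ) ^ ((NN d : ℝ) - 25 / 21) * (H * H) = (H : ℝ) ^ e * (H : ℝ) ^ NN d := by
      rw [← Real.rpow_natCast (H : ℝ) (NN d), ← Real.rpow_add hH0]
      have : (H : ℝ) * H = (H : ℝ) ^ (2 : ℝ) := by rw [Real.rpow_two]; ring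
      rw [this, ← Real.rpow_add hH0]
      congr 1
      rw [he]
      ring
    have hHH : 0 < (H : ℝ) * H := by positivity
    refine le_of_mul_le_mul_right ?_ hHH
    calc (Nat.card V : ℝ) * (H * H) ≤ ((Nat.card V : ℝ) * (H + 1)) * H := by
          have : (0 : ℝ) ≤ Nat.card V := Nat.cast_nonneg _
          nlinarith
      _ ≤ (M * (Nat.card B : ℝ)) * H := by gcongr
      _ = M * ((Nat.card B : ℝ) * H) := by ring
      _ ≤ (C0 * (2 * (H : ℝ) ^ e)) * (((#Θ + 1) * 9 ^ NN d) * (H : ℝ) ^ NN d) := by gcongr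
      _ = C1 * ((H : ℝ) ^ e * (H : ℝ) ^ NN d) := by rw [hC1]; ring
      _ = C1 * ((H : ℝ) ^ ((NN d : ℝ) - 25 / 21) * (H * H)) := by rw [hrp]
      _ ≤ (1 + C1 + C2) * ((H : ℝ) ^ ((NN d : ℝ) - 25 / 21) * (H * H)) := by
          gcongr
          linarith
      _ = _ := by ring
  · intro p hp
    rw [hReg] at hp
    have h1 := hp.1
    have h2 := le_abs_self p.1
    omega
  · rw [hV]
    exact fun F hF => hF.1.1
  · rw [hV]
    rintro F ⟨⟨hF, x, y, h1, h2, h3, h4⟩, -⟩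
    exact ⟨(x, y), by rw [hReg]; exact ⟨h1, by push_cast at h2; exact h2, h3⟩, h4⟩
  · intro F hF G hG
    rw [hV] at hF
    obtain ⟨⟨hF1, -⟩, θ, hθ, h1⟩ := hF
    rw [hB]
    refine ⟨?_, θ, hθ, ?_⟩
    · rw [hH']
      exact hFAM.2 Φ d H 0 _ (by omega) F hF1 G hG
    · rw [hDEG.1 d F G θ (by omega) (hG.1.trans (by omega))]
      exact h1
  · intro F hF
    have := hcount F hF
    push_cast at this ⊢
    exact this

end Pool.Agent.Q96.UI
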