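import Pool.Agent.Q256.UI.Stm

set_option autoImplicit false

/-! # Project UI (helper256), job MID -/

namespace Pool.Agent.Q96.UI

open Finset MvPolynomial
open Pool.Agent.Q256.UP (PBox)
open Pool.Agent.Q256.UI

/-- the integer points in a strip -/
theorem strip (θ K : ℝ) (hK : 0 ≤ K) (T : ℕ) :
    {p : ℤ × ℤ | (T : ℤ) ≤ p.1 ∧ p.1 ≤ 2 * T ∧ |(p.2 : ℝ) - θ * p.1| ≤ K}.Finite ∧
    {p : ℤ × ℤ | (T : ℤ) ≤ p.1 ∧ p.1 ≤ 2 * T ∧ |(p.2 : ℝ) - θ * p.1| ≤ K}.ncard ≤ (T + 1) * (⌊2 * K⌋₊ + 1) := by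
  classical
  obtain ⟨S, hS⟩ : ∃ S : Finset (ℤ × ℤ), S = (Finset.Icc (T : ℤ) (2 * T)).biUnion (fun x =>
      (Finset.Icc ⌈θ * x - K⌉ ⌊θ * x + K⌋).image (fun y => (x, y))) := ⟨_, rfl⟩
  have hsub : {p : ℤ × ℤ | (T : ℤ) ≤ p.1 ∧ p.1 ≤ 2 * T ∧ |(p.2 : ℝ) - θ * p.1| ≤ K} ⊆ (S : Set (ℤ × ℤ)) := by
    rintro ⟨x, y⟩ ⟨h1, h2, h3⟩
    rw [Finset.mem_coe, hS, mem_biUnion]
    refine ⟨x, Finset.mem_Icc.2 ⟨h1, h2⟩, Finset.mem_image.2 ⟨y, Finset.mem_Icc.2 ?_, rfl⟩⟩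
    rw [abs_le] at h3
    simp only at h3
    exact ⟨Int.ceil_le.2 (by linarith [h3.1]), Int.le_floor.2 (by linarith [h3.2])⟩
  have hcard : #S ≤ (T + 1) * (⌊2 * K⌋₊ + 1) := by
    rw [hS]
    refine card_biUnion_le.trans ?_
    have h1 : ∀ x ∈ Finset.Icc (T : ℤ) (2 * T), #((Finset.Icc ⌈θ * x - K⌉ ⌊θ * x + K⌋).image (fun y => (x, y))) ≤
        ⌊2 * K⌋₊ + 1 := by
      intro x _
      refine card_image_le.trans ?_
      rw [Int.card_Icc]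
      have h2 : (⌊θ * x + K⌋ : ℝ) - ⌈θ * x - K⌉ ≤ 2 * K := by
        have := Int.floor_le (θ * x + K)
        have := Int.le_ceil (θ * x - K)
        linarith
      have h3 : ⌊θ * x + K⌋ - ⌈θ * x - K⌉ ≤ ⌊2 * K⌋ := Int.le_floor.2 (by push_cast; exact h2)
      have h4 : ((⌊2 * K⌋₊ : ℕ) : ℤ) = ⌊2 * K⌋ := Int.natCast_floor_eq_floor (by linarith)
      omega
    refine (sum_le_sum h1).trans ?_
    rw [sum_const, Int.card_Icc, smul_eq_mul]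
    have : (2 * (T : ℤ) + 1 - T).toNat = T + 1 := by omega
    rw [this]
  exact ⟨(S.finite_toSet).subset hsub, (Set.ncard_le_ncard hsub S.finite_toSet).trans (by
    rw [Set.ncard_coe_finset]; exact hcard)⟩

/-- UI-MID -/
theorem mid (hPKG : S_PKG) (hCM : S_CM) (hFAM : S_FAM) (hTAY : S_TAY) : S_MID := by
  classical
  intro d Φ hd hL
  obtain ⟨Θ, A, hP⟩ := hPKG d Φ (by omega) hL
  have hA : 1 ≤ A := by
    have h1 := hP.one
    have h2 : (1 : ℝ) ≤ (d : ℝ) * 4 ^ d := by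
      have h3 : (1 : ℝ) ≤ d := by exact_mod_cast (by omega : 1 ≤ d)
      have h4 : (1 : ℝ) ≤ 4 ^ d := one_le_pow₀ (by norm_num)
      nlinarith
    linarith
  have hA0 : 0 < A := by linarith
  have hd1 : (1 : ℝ) ≤ d := by exact_mod_cast (by omega : 1 ≤ d)
  -- the constant
  obtain ⟨C1, hC1⟩ : ∃ C1 : ℝ, C1 = (#Θ + 1) * 2 * (2 * A * (d + 1) + 1) * (2 * (d + 1) + 1) ^ NN d := ⟨_, rfl⟩
  have hC10 : 0 ≤ C1 := by rw [hC1]; positivity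
  refine ⟨C1 + 2 + A * (d + 1), by nlinarith, fun H T hH hT => ?_⟩
  have hH1 : (1 : ℝ) ≤ H := by exact_mod_cast hH
  have hH0 : (0 : ℝ) < H := by linarith
  have hT2 : 2 * H ≤ T := by
    have h1 : (2 : ℝ) * H ≤ T := by
      refine le_trans ?_ hT
      apply mul_le_mul_of_nonneg_right _ hH0.le
      nlinarith
    exact_mod_cast h1
  have hTA : A * (d + 1) * H ≤ T := by
    refine le_trans ?_ hT
    apply mul_le_mul_of_nonneg_right _ hH0.le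
    linarith
  have hT1 : (1 : ℝ) ≤ T := by exact_mod_cast (by omega : 1 ≤ T)
  obtain ⟨H', hH'⟩ : ∃ H' : ℕ, H' = H + (d - 1 + 1) * H := ⟨_, rfl⟩
  have hH'd : H' = (d + 1) * H := by
    rw [hH', Nat.sub_add_cancel (by omega : 1 ≤ d)]
    ring
  have hH'r : (H' : ℝ) = (d + 1) * H := by rw [hH'd]; push_cast; ring
  have hH'1 : 1 ≤ H' := by rw [hH'd]; exact Nat.mul_pos (by omega) hH
  obtain ⟨Reg, hReg⟩ : ∃ Reg : Set (ℤ × ℤ), Reg = {p : ℤ × ℤ | (T : ℤ) ≤ p.1 ∧ p.1 ≤ 2 * T ∧ |p.2| ≤ p.1} := ⟨_, rfl⟩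
  obtain ⟨M, hM⟩ : ∃ M : ℕ, M = #Θ * ((T + 1) * (⌊2 * (A * H')⌋₊ + 1)) := ⟨_, rfl⟩
  have hcount : ∀ F ∈ Fam Φ d H', {p | p ∈ Reg ∧ |eval ![p.1, p.2] F| ≤ (d - 1 + 1 : ℕ) * H * |p.1| ^ (d - 1)}.Finite ∧
      {p | p ∈ Reg ∧ |eval ![p.1, p.2] F| ≤ (d - 1 + 1 : ℕ) * H * |p.1| ^ (d - 1)}.ncard ≤ M := by
    intro F hF
    have hsub : {p | p ∈ Reg ∧ |eval ![p.1, p.2] F| ≤ (d - 1 + 1 : ℕ) * H * |p.1| ^ (d - 1)} ⊆
        ⋃ θ ∈ Θ, {p : ℤ × ℤ | (T : ℤ) ≤ p.1 ∧ p.1 ≤ 2 * T ∧ |(p.2 : ℝ) - θ * p.1| ≤ A * H'} := by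
      rintro ⟨x, y⟩ ⟨hp, hv⟩
      rw [hReg] at hp
      obtain ⟨h1, h2, h3⟩ := hp
      simp only at h1 h2 h3 hv
      have hx0 : 0 ≤ x := by omega
      have hxr : (T : ℝ) ≤ x := by exact_mod_cast h1
      have hx1 : (1 : ℝ) ≤ x := by linarith
      have h4 : |ev F x y| ≤ d * 2 ^ d * H' * (x : ℝ) ^ (d - 1) := by
        rw [hTAY.2 F x y, ← Int.cast_abs]
        have h5 : ((|eval ![x, y] F| : ℤ) : ℝ) ≤ (((d - 1 + 1 : ℕ) * H * |x| ^ (d - 1) : ℤ) : ℝ) := by exact_mod_cast hv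
        refine h5.trans ?_
        rw [abs_of_nonneg hx0, Nat.sub_add_cancel (by omega : 1 ≤ d), hH'r]
        push_cast
        apply mul_le_mul_of_nonneg_right _ (by positivity)
        have h6 : (1 : ℝ) ≤ 2 ^ d := one_le_pow₀ (by norm_num)
        have h7 : (0 : ℝ) ≤ (d : ℝ) * H := by positivity
        calc (d : ℝ) * H ≤ (d : ℝ) * H * (2 ^ d * (d + 1)) := by
              apply le_mul_of_one_le_right h7
              nlinarith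
          _ = _ := by ring
      obtain ⟨θ, hθ, h5⟩ := hP.near H' hH'1 F hF x y (by rw [hH'r]; linarith) h3 h4
      rw [Set.mem_iUnion₂]
      exact ⟨θ, hθ, h1, h2, h5⟩
    have hAH : 0 ≤ A * H' := by positivity
    have hfin : (⋃ θ ∈ Θ, {p : ℤ × ℤ | (T : ℤ) ≤ p.1 ∧ p.1 ≤ 2 * T ∧ |(p.2 : ℝ) - θ * p.1| ≤ A * H'}).Finite :=
      Set.Finite.biUnion Θ.finite_toSet fun θ _ => (strip θ _ hAH T).1
    refine ⟨hfin.subset hsub, (Set.ncard_le_ncard hsub hfin).trans ?_⟩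
    refine (Finset.set_ncard_biUnion_le Θ _).trans ?_
    refine (sum_le_sum fun θ _ => (strip θ _ hAH T).2).trans ?_
    rw [sum_const, smul_eq_mul, hM]
  have key := hCM d H (d - 1) M Φ Reg (ZR Φ d H T (2 * T)) (Fam Φ d H') ?_ ?_ (hFAM.1 Φ d H' (by omega)).1 ?_ ?_ ?_
  · rw [(hFAM.1 Φ d H' (by omega)).2, Nat.sub_add_cancel (by omega : 1 ≤ d)] at key
    have key' : (Nat.card (ZR Φ d H T (2 * T)) : ℝ) * ((H : ℝ) + 1) ^ d ≤ M * (2 * H' + 1) ^ NN d := by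
      exact_mod_cast key
    have hMb : (M : ℝ) ≤ (#Θ + 1) * 2 * (2 * A * (d + 1) + 1) * (T * H) := by
      rw [hM]
      push_cast
      have h1 : (⌊2 * (A * (H' : ℝ))⌋₊ : ℝ) ≤ 2 * (A * H') := Nat.floor_le (by positivity)
      have h2 : (⌊2 * (A * (H' : ℝ))⌋₊ : ℝ) + 1 ≤ (2 * A * (d + 1) + 1) * H := by
        rw [hH'r] at h1 ⊢
        nlinarith
      have h3 : (T : ℝ) + 1 ≤ 2 * T := by linarith
      calc (#Θ : ℝ) * (((T : ℝ) + 1) * ((⌊2 * (A * (H' : ℝ))⌋₊ : ℝ) + 1)) ≤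
          (#Θ + 1) * ((2 * T) * ((2 * A * (d + 1) + 1) * H)) := by
            gcongr
            linarith
        _ = _ := by ring
    have hB : (2 * (H' : ℝ) + 1) ^ NN d ≤ (2 * (d + 1) + 1) ^ NN d * (H : ℝ) ^ NN d := by
      rw [← mul_pow]
      apply pow_le_pow_left₀ (by positivity)
      rw [hH'r]
      nlinarith
    have hHd : (H : ℝ) ^ d ≤ ((H : ℝ) + 1) ^ d := pow_le_pow_left₀ hH0.le (by linarith) d
    have hrp : (H : ℝ) ^ ((NN d : ℝ) + 1 - d) * (H : ℝ) ^ d = (H : ℝ) ^ NN d * H := by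
      rw [← Real.rpow_natCast (H : ℝ) d, ← Real.rpow_add hH0]
      rw [show ((NN d : ℝ) + 1 - d) + d = NN d + 1 by ring, Real.rpow_add hH0, Real.rpow_natCast, Real.rpow_one]
    have hHdp : 0 < (H : ℝ) ^ d := by positivity
    refine le_of_mul_le_mul_right ?_ hHdp
    calc (Nat.card (ZR Φ d H T (2 * T)) : ℝ) * (H : ℝ) ^ d ≤
        (Nat.card (ZR Φ d H T (2 * T)) : ℝ) * ((H : ℝ) + 1) ^ d := by gcongr
      _ ≤ M * (2 * H' + 1) ^ NN d := key'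
      _ ≤ ((#Θ + 1) * 2 * (2 * A * (d + 1) + 1) * (T * H)) * ((2 * (d + 1) + 1) ^ NN d * (H : ℝ) ^ NN d) := by
          gcongr
      _ = C1 * T * ((H : ℝ) ^ NN d * H) := by rw [hC1]; ring
      _ = C1 * T * ((H : ℝ) ^ ((NN d : ℝ) + 1 - d) * (H : ℝ) ^ d) := by rw [hrp]
      _ ≤ (C1 + 2 + A * (d + 1)) * T * ((H : ℝ) ^ ((NN d : ℝ) + 1 - d) * (H : ℝ) ^ d) := by
          gcongr
          have : 0 ≤ A * (d + 1) := by positivity
          linarith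
      _ = _ := by ring
  · intro p hp
    rw [hReg] at hp
    have h1 := hp.1
    have h2 := le_abs_self p.1
    omega
  · exact fun F hF => hF.1
  · rintro F ⟨hF, x, y, h1, h2, h3, h4⟩
    exact ⟨(x, y), by rw [hReg]; exact ⟨h1, by push_cast at h2; exact h2, h3⟩, h4⟩
  · intro F hF G hG
    rw [hH']
    exact hFAM.2 Φ d H (d - 1) _ le_rfl F hF.1 G hG
  · intro F hF
    have := hcount F hF
    push_cast at this ⊢
    exact this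

end Pool.Agent.Q96.UI
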